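import Pool.Agent.Q267.OV.Gen4

/-!
# Single equations in one variable over one-relator groups: almost all inputs are decided

Let `k ≥ 2`. The input of the single one-variable equation problem for `G = ⟨x_1, …, x_k ∣ r⟩` is a
word in the `2 k + 2` letters `x_1^±1, …, x_k^±1, x^±1`. We show that there is an algorithm, the same
for all relators `r`, which stops on all pairs of a relator and an input and which decides almost all
inputs for each relator: if it answers `true`, then the equation has no solution, and for each `r` the
proportion of the inputs of length `n` for which it does not answer `true` tends to `0` as `n → ∞`.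

* `Word k`: the words in `x_1, …, x_k` (letters `Sum.inl i`), the variable (the letter `Sum.inr ()`)
  and their inverses (marked by `false`).
* `value r g w`: the value of the word `w` when the variable has the value `g`.
* `Satisfiable r w`: the equation `w = 1` has a solution in the group.
-/

set_option autoImplicit false

namespace Pool.Agent.Results.MP_1ebeae_al.AlmostAllUnsolvable

open Filter

/-- the one-relator group `⟨x_1, …, x_k ∣ r⟩` -/
abbrev Grp {k : ℕ} (r : FreeGroup (Fin k)) : Type := PresentedGroup ({r} : Set (FreeGroup (Fin k)))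

/-- words in `x_1, …, x_k`, the variable and their inverses -/
abbrev Word (k : ℕ) : Type := List ((Fin k ⊕ Unit) × Bool)

/-- the value of the word when the variable has the value `g` -/
def value {k : ℕ} (r : FreeGroup (Fin k)) (g : Grp r) (w : Word k) : Grp r :=
  FreeGroup.lift (Sum.elim (fun i => (PresentedGroup.of i : Grp r)) (fun _ : Unit => g))
    (FreeGroup.mk w)

/-- the equation `w = 1` has a solution in the group -/
def Satisfiable {k : ℕ} (r : FreeGroup (Fin k)) (w : Word k) : Prop := ∃ g : Grp r, value r g w = 1

/-- Let `k ≥ 2`. There is a total computable `D` such that for each relator `ρ`: the equation `w = 1`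
over `⟨x_1, …, x_k ∣ ρ⟩` has no solution if `D ρ w = true`, the proportion of the words `w` of length
`n` for which `D ρ w` is not `true` tends to `0`, and so does the proportion of the words `w` of
length `n` such that `w = 1` has a solution. -/
theorem result (k : ℕ) (hk : 2 ≤ k) :
    ∃ D : List (Fin k × Bool) → Word k → Bool, Computable₂ D ∧
      ∀ ρ : List (Fin k × Bool),
        (∀ w, D ρ w = true → ¬ Satisfiable (FreeGroup.mk ρ) w) ∧
        Tendsto (fun n : ℕ => ({w : Word k | w.length = n ∧ D ρ w = false}.ncard : ℝ) /
          (2 * k + 2) ^ n) atTop (nhds 0) ∧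
        Tendsto (fun n : ℕ =>
          ({w : Word k | w.length = n ∧ Satisfiable (FreeGroup.mk ρ) w}.ncard : ℝ) /
          (2 * k + 2) ^ n) atTop (nhds 0) := by
  set i : Fin k := ⟨0, by omega⟩ with hi
  set j : Fin k := ⟨1, by omega⟩ with hj
  have hij : i ≠ j := by
    intro h
    have := congrArg Fin.val h
    simp [hi, hj] at this
  have hD : ∀ ρ w, Pool.Agent.Q267.OV.test i j ρ w = true → ¬ Satisfiable (FreeGroup.mk ρ) w := by
    rintro ρ w hw ⟨g, hg⟩
    have h1 := (Pool.Agent.Q267.OV.test_false i j ρ w).mpr
      (Pool.Agent.Q267.OV.test_sol i j ρ w g hg)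
    rw [hw] at h1
    exact Bool.noConfusion h1
  refine ⟨Pool.Agent.Q267.OV.test i j, Pool.Agent.Q267.OV.test_comp i j, fun ρ => ⟨hD ρ,
    Pool.Agent.Q267.OV.test_rare i j hij ρ, ?_⟩⟩
  refine squeeze_zero (fun n => by positivity) (fun n => ?_)
    (Pool.Agent.Q267.OV.test_rare i j hij ρ)
  refine div_le_div_of_nonneg_right ?_ (by positivity)
  have hfin : {w : Word k | w.length = n ∧ Pool.Agent.Q267.OV.test i j ρ w = false}.Finite :=
    (List.finite_length_eq _ n).subset fun w hw => hw.1
  have hsub : {w : Word k | w.length = n ∧ Satisfiable (FreeGroup.mk ρ) w} ⊆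
      {w : Word k | w.length = n ∧ Pool.Agent.Q267.OV.test i j ρ w = false} := by
    rintro w ⟨hw1, hw2⟩
    refine ⟨hw1, ?_⟩
    by_contra hc
    exact hD ρ w (Bool.eq_true_of_not_eq_false hc) hw2
  exact_mod_cast Set.ncard_le_ncard hsub hfin

end Pool.Agent.Results.MP_1ebeae_al.AlmostAllUnsolvable
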