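import Mathlib
import Pool.Agent.Q6.BS.Iso

/-!
# Single equations in one variable over cyclic and Baumslag-Solitar one-relator groups `BS(1,n)`

For every one-relator presentation `⟨x_1, …, x_k ∣ r⟩` of a cyclic group or of a group
`BS(1,n) = ⟨a, t ∣ t a t⁻¹ = aⁿ⟩`, `n ≠ 0`, there is an algorithm which decides, given a word `w` in
`x_1, …, x_k`, a variable and their inverses, whether the equation `w = 1` has a solution in the group.
-/

set_option autoImplicit false

namespace Pool.Agent.Results.MP_1ebeae_al.CyclicAndBaumslagSolitar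

/-- the one-relator group `⟨x_1, …, x_k ∣ r⟩` -/
abbrev Grp {k : ℕ} (r : FreeGroup (Fin k)) : Type := PresentedGroup ({r} : Set (FreeGroup (Fin k)))

/-- the relator `t a t⁻¹ a⁻ⁿ` of `BS(1,n)`; `a` is generator `0` and `t` is generator `1` -/
def bsRelator (n : ℤ) : FreeGroup (Fin 2) :=
  FreeGroup.of 1 * FreeGroup.of 0 * (FreeGroup.of 1)⁻¹ * (FreeGroup.of 0 ^ n)⁻¹

/-- words in `x_1, …, x_k` (letters `Sum.inl i`), the variable (the letter `Sum.inr ()`) and their
inverses (marked by `false`) -/
abbrev Word (k : ℕ) : Type := List ((Fin k ⊕ Unit) × Bool)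

/-- the value of the word when the variable has the value `g` -/
def value {k : ℕ} (r : FreeGroup (Fin k)) (g : Grp r) (w : Word k) : Grp r :=
  FreeGroup.lift (Sum.elim (fun i => (PresentedGroup.of i : Grp r)) (fun _ : Unit => g))
    (FreeGroup.mk w)

/-- the equation `w = 1` has a solution in the group -/
def Satisfiable {k : ℕ} (r : FreeGroup (Fin k)) (w : Word k) : Prop := ∃ g : Grp r, value r g w = 1

theorem result : ∀ (k : ℕ) (r : FreeGroup (Fin k)),
    (IsCyclic (Grp r) ∨ ∃ n : ℤ, n ≠ 0 ∧ Nonempty (Grp r ≃* Grp (bsRelator n))) →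
    ComputablePred (Satisfiable r) := by
  rintro k r (h | ⟨n, hn, ⟨f⟩⟩)
  · exact Pool.Agent.Q6.BS.dec_of_cyclic (fun i => (PresentedGroup.of i : Grp r))
  · exact Pool.Agent.Q6.BS.dec_of_bs (fun i => (PresentedGroup.of i : Grp r)) hn f

end Pool.Agent.Results.MP_1ebeae_al.CyclicAndBaumslagSolitar
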