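import Pool.Agent.Q267.OV.Main
import Pool.Agent.Q267.OV.Stack

/-!
# Single equations in one variable over one-relator groups: few failures suffice

Let `G = ⟨x_1, …, x_k ∣ r⟩`. The input of the single one-variable equation problem for `G` is a word
in the `2 k + 2` letters `x_1^±1, …, x_k^±1, x^±1`. We show that the problem is decidable if some
program, which need not stop on all inputs, fails to solve it for at most `c ^ n` of the
`(2 k + 2) ^ n` inputs of length `n`, for some `c < 2 √(2 k + 1)`; more generally for some `c` below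
the growth rate of a decidable set, closed under concatenation, of words which have the value `1` for
all values of the variable.

* `Word k`: the words in `x_1, …, x_k` (letters `Sum.inl i`), the variable (the letter `Sum.inr ()`)
  and their inverses (marked by `false`).
* `value r g w`: the value of the word `w` when the variable has the value `g`.
* `Satisfiable r w`: the equation `w = 1` has a solution in the group.
* `Wrong r φ w u`: on the input `u` the program `φ` does not stop or gives an answer which is not the
  right answer for `w`.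
-/

set_option autoImplicit false

namespace Pool.Agent.Results.MP_1ebeae_al.FewFailuresSuffice

open Filter

/-- the one-relator group `⟨x_1, …, x_k ∣ r⟩` -/
abbrev Grp {k : ℕ} (r : FreeGroup (Fin k)) : Type := PresentedGroup ({r} : Set (FreeGroup (Fin k)))

/-- words in `x_1, …, x_k`, the variable and their inverses -/
abbrev Word (k : ℕ) : Type := List ((Fin k ⊕ Unit) × Bool)

/-- the value of the word when the variable has the value `g` -/
def value {k : ℕ} (r : FreeGroup (Fin k)) (g : Grp r) (w : Word k) : Grp r :=
  FreeGroup.lift (Sum.elim (fun i => (PresentedGroup.of i : Grp r)) (fun _ : Unit => g))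
    (FreeGroup.mk w)

/-- the equation `w = 1` has a solution in the group -/
def Satisfiable {k : ℕ} (r : FreeGroup (Fin k)) (w : Word k) : Prop := ∃ g : Grp r, value r g w = 1

/-- on the input `u` the program `φ` does not give the right answer for `w` -/
def Wrong {k : ℕ} (r : FreeGroup (Fin k)) (φ : Word k →. Bool) (w u : Word k) : Prop :=
  ∀ b ∈ φ u, ¬ (b = true ↔ Satisfiable r w)

/-- Q1 for the group is decidable iff it is decidable with at most `c ^ n` failures. -/
def FewFailures {k : ℕ} (r : FreeGroup (Fin k)) (Z : Word k → Prop) (c : ℝ) : Prop :=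
  (ComputablePred (Satisfiable r) ↔
    ∃ φ : Word k →. Bool, Partrec φ ∧
      ∀ᶠ n : ℕ in atTop, ({w : Word k | w.length = n ∧ Wrong r φ w w}.ncard : ℝ) ≤ c ^ n) ∧
  (ComputablePred (Satisfiable r) ↔
    ∃ (φ : Word k →. Bool) (h : Word k → ℕ), Partrec φ ∧ Computable h ∧
      ∀ w n, h w ≤ n →
        ({z : Word k | z.length = n ∧ Z z ∧ Wrong r φ w (w ++ z)}.ncard : ℝ) ≤ c ^ n)

theorem value_append {k : ℕ} (r : FreeGroup (Fin k)) (g : Grp r) (w z : Word k) :
    value r g (w ++ z) = value r g w * value r g z := by
  unfold value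
  rw [← FreeGroup.mul_mk, map_mul]

theorem main {k : ℕ} (r : FreeGroup (Fin k)) (Z : Word k → Prop) (hZc : ComputablePred Z)
    (hZ1 : ∀ z, Z z → ∀ g, value r g z = 1) (hZ : ∀ z z', Z z → Z z' → Z (z ++ z'))
    (c : ℝ) (hc : 0 ≤ c)
    (hn : ∃ n, 0 < n ∧ c ^ n < ({z : Word k | z.length = n ∧ Z z}.ncard : ℝ)) :
    FewFailures r Z c := by
  have hS : ∀ w z, Z z → (Satisfiable r (w ++ z) ↔ Satisfiable r w) := by
    intro w z hz
    unfold Satisfiable
    refine exists_congr fun g => ?_
    rw [value_append, hZ1 z hz g, mul_one]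
  refine ⟨⟨fun h => Pool.Agent.Q267.OV.few_of _ h c hc, ?_⟩,
    ⟨fun h => Pool.Agent.Q267.OV.few_of' _ Z hS h c hc, ?_⟩⟩
  · rintro ⟨φ, hφ, hF⟩
    exact Pool.Agent.Q267.OV.few _ Z hZc hZ hS φ hφ c hc hn hF
  · rintro ⟨φ, h, hφ, hh, hF⟩
    exact Pool.Agent.Q267.OV.fewc _ Z hZc hZ φ hφ c hc hn h hh hF

/-- Let `G = ⟨x_1, …, x_k ∣ r⟩`. (1) For `0 ≤ c < 2 √(2 k + 1)`, the single one-variable equation
problem for `G` is decidable iff some program fails on at most `c ^ n` words of length `n` for all
large `n`, and iff for some program and some computable `h`, for all words `w` and all `n ≥ h w`, the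
program fails on at most `c ^ n` of the words `w z` where `z` has length `n` and the value `1` in the
free group. (2) The same with any decidable set `Z` of words, closed under concatenation, which have
the value `1` in `G` for all values of the variable, and any `c ≥ 0` such that for some `n ≥ 1` more
than `c ^ n` words of length `n` are in `Z`. -/
theorem result (k : ℕ) (r : FreeGroup (Fin k)) :
    (∀ c : ℝ, 0 ≤ c → c < 2 * √(2 * k + 1) →
      FewFailures r (fun z => FreeGroup.mk z = 1) c) ∧
    ∀ Z : Word k → Prop, ComputablePred Z → (∀ z, Z z → ∀ g, value r g z = 1) →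
      (∀ z z', Z z → Z z' → Z (z ++ z')) → ∀ c : ℝ, 0 ≤ c →
      (∃ n, 0 < n ∧ c ^ n < ({z : Word k | z.length = n ∧ Z z}.ncard : ℝ)) →
      FewFailures r Z c := by
  refine ⟨fun c hc hc2 => ?_, fun Z hZc hZ1 hZ c hc hn => main r Z hZc hZ1 hZ c hc hn⟩
  have hZ : (fun z : Word k => FreeGroup.mk z = 1) = Pool.Agent.Q267.OV.Red := by
    funext z
    exact (propext (Pool.Agent.Q267.OV.red_iff z)).symm
  refine main r _ ?_ ?_ ?_ c hc ?_
  · rw [hZ]
    exact Pool.Agent.Q267.OV.red_dec
  · intro z hz g
    unfold value
    rw [hz, map_one]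
  · intro z z' hz hz'
    rw [← FreeGroup.mul_mk, hz, hz', one_mul]
  · have h := Pool.Agent.Q267.OV.growth (I := Fin k ⊕ Unit) c hc (by
      have h1 : (Fintype.card ((Fin k ⊕ Unit) × Bool) : ℝ) = 2 * k + 2 := by
        rw [Fintype.card_prod, Fintype.card_sum, Fintype.card_fin, Fintype.card_unit,
          Fintype.card_bool]
        push_cast
        ring
      rw [h1]
      have h2 : (0 : ℝ) ≤ 2 * k + 1 := by positivity
      have h3 : c ^ 2 < (2 * √(2 * k + 1)) ^ 2 := pow_lt_pow_left₀ hc2 hc (by norm_num)
      rw [mul_pow, Real.sq_sqrt h2] at h3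
      linarith)
    obtain ⟨n, hn0, hn⟩ := h
    refine ⟨n, hn0, ?_⟩
    have : {z : Word k | z.length = n ∧ FreeGroup.mk z = 1} =
        {z : Word k | z.length = n ∧ Pool.Agent.Q267.OV.Red z} := by
      ext z
      exact and_congr_right fun _ => (Pool.Agent.Q267.OV.red_iff z).symm
    rw [this]
    exact hn

end Pool.Agent.Results.MP_1ebeae_al.FewFailuresSuffice
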